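import Pool.Agent.K4H52.HS.Hardy

set_option autoImplicit false
open MeasureTheory Filter Topology Set
open scoped ENNReal NNReal

namespace Pool.Agent.K4H52.HS

/-- `(u, G)` is the limit in `L²` of `(φ n, ∇ φ n)` with smooth compactly supported `φ n`. -/
structure Appr (u : E3 → ℝ) (G : E3 → E3) (φ : ℕ → E3 → ℝ) : Prop where
  smooth : ∀ n, ContDiff ℝ ((⊤ : ℕ∞) : WithTop ℕ∞) (φ n)
  supp : ∀ n, HasCompactSupport (φ n)
  memu : MemLp u 2 volume
  memG : MemLp G 2 volume
  lim : Tendsto (fun n => eLpNorm (fun x => φ n x - u x) 2 volume) atTop (𝓝 0)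
  limG : Tendsto (fun n => eLpNorm (fun x => gradient (φ n) x - G x) 2 volume) atTop (𝓝 0)

/-- the Sobolev constant -/
noncomputable def sob : ℝ≥0 := eLpNormLESNormFDerivOfEqInnerConst (volume : Measure E3) 2

lemma enorm_gradient (φ : E3 → ℝ) (x : E3) : ‖gradient φ x‖ₑ = ‖fderiv ℝ φ x‖ₑ := by
  unfold gradient
  rw [LinearIsometryEquiv.enorm_map]

lemma eLpNorm_grad (φ : E3 → ℝ) (p : ℝ≥0∞) :
    eLpNorm (gradient φ) p volume = eLpNorm (fderiv ℝ φ) p volume :=
  eLpNorm_congr_enorm_ae (Eventually.of_forall fun x => enorm_gradient φ x)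

lemma sobolev_smooth {φ : E3 → ℝ} (hφ : ContDiff ℝ 1 φ) (hs : HasCompactSupport φ) :
    eLpNorm φ 6 volume ≤ sob * eLpNorm (gradient φ) 2 volume := by
  have h := eLpNorm_le_eLpNorm_fderiv_of_eq_inner (volume : Measure E3) hφ hs (p := 2) (p' := 6)
    (by norm_num) (by simp) (by simp; norm_num)
  rw [eLpNorm_grad]
  simpa [sob] using h

lemma eLpNorm_two_sq {F : Type*} [NormedAddCommGroup F] (f : E3 → F) (μ : Measure E3) :
    eLpNorm f 2 μ ^ 2 = ∫⁻ x, ‖f x‖ₑ ^ 2 ∂μ := by
  rw [eLpNorm_eq_lintegral_rpow_enorm_toReal (by norm_num) (by norm_num)]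
  rw [← ENNReal.rpow_natCast, ← ENNReal.rpow_mul]
  norm_num

lemma hardy_smooth' {φ : E3 → ℝ} (hφ : ContDiff ℝ 1 φ) (hs : HasCompactSupport φ) :
    eLpNorm φ 2 nu ≤ 2 * eLpNorm (gradient φ) 2 volume := by
  rw [← ENNReal.pow_le_pow_left_iff two_ne_zero, mul_pow, eLpNorm_two_sq, eLpNorm_two_sq]
  simp only [enorm_gradient]
  refine (hardy_smooth hφ hs).trans (le_of_eq ?_)
  norm_num

lemma fatou {u : E3 → ℝ} {f : ℕ → E3 → ℝ} {p : ℝ≥0∞} {μ : Measure E3}
    (hf : ∀ n, AEStronglyMeasurable (f n) volume) (hu : AEStronglyMeasurable u volume)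
    (hlim : Tendsto (fun n => eLpNorm (fun x => f n x - u x) 2 volume) atTop (𝓝 0))
    (hμ : μ ≪ volume) {b : ℕ → ℝ≥0∞} {B : ℝ≥0∞} (hb : ∀ n, eLpNorm (f n) p μ ≤ b n)
    (hB : Tendsto b atTop (𝓝 B)) : eLpNorm u p μ ≤ B := by
  have h1 : TendstoInMeasure volume f atTop u :=
    tendstoInMeasure_of_tendsto_eLpNorm (by norm_num) hf hu hlim
  obtain ⟨ns, hns, hae⟩ := h1.exists_seq_tendsto_ae
  have hae' : ∀ᵐ x ∂μ, Tendsto (fun i => f (ns i) x) atTop (𝓝 (u x)) := hμ.ae_le hae
  refine (Lp.eLpNorm_lim_le_liminf_eLpNorm (fun n => (hf (ns n)).mono_ac hμ) u hae').trans ?_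
  have h2 : Tendsto (fun i => b (ns i)) atTop (𝓝 B) := hB.comp hns.tendsto_atTop
  rw [← h2.liminf_eq]
  exact liminf_le_liminf (Eventually.of_forall fun i => hb (ns i))

namespace Appr

variable {u v : E3 → ℝ} {G H : E3 → E3} {φ ψ : ℕ → E3 → ℝ}

lemma smooth1 (h : Appr u G φ) (n : ℕ) : ContDiff ℝ 1 (φ n) :=
  (h.smooth n).of_le (by exact_mod_cast le_top)

lemma cont (h : Appr u G φ) (n : ℕ) : Continuous (φ n) := (h.smooth n).continuous

lemma contG (h : Appr u G φ) (n : ℕ) : Continuous (gradient (φ n)) := by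
  unfold gradient
  have := (h.smooth1 n).continuous_fderiv (by norm_num)
  fun_prop

lemma bnd (h : Appr u G φ) (n : ℕ) : eLpNorm (gradient (φ n)) 2 volume ≤
    eLpNorm (fun x => gradient (φ n) x - G x) 2 volume + eLpNorm G 2 volume := by
  have h1 : gradient (φ n) = (fun x => gradient (φ n) x - G x) + G := by
    ext1 x
    simp
  conv_lhs => rw [h1]
  exact eLpNorm_add_le ((h.contG n).aestronglyMeasurable.sub h.memG.1) h.memG.1 (by norm_num)

lemma tendsto_bnd (h : Appr u G φ) (C : ℝ≥0∞) (hC : C ≠ ⊤) :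
    Tendsto (fun n => C * (eLpNorm (fun x => gradient (φ n) x - G x) 2 volume +
      eLpNorm G 2 volume)) atTop (𝓝 (C * eLpNorm G 2 volume)) := by
  have h1 := (h.limG.add_const (eLpNorm G 2 volume))
  rw [zero_add] at h1
  exact ENNReal.Tendsto.const_mul h1 (Or.inr hC)

lemma sobolev (h : Appr u G φ) : eLpNorm u 6 volume ≤ sob * eLpNorm G 2 volume := by
  refine fatou (fun n => (h.cont n).aestronglyMeasurable) h.memu.1 h.lim Measure.AbsolutelyContinuous.rfl
    (fun n => ?_) (h.tendsto_bnd sob ENNReal.coe_ne_top)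
  refine (sobolev_smooth (h.smooth1 n) (h.supp n)).trans ?_
  gcongr
  exact h.bnd n

lemma hardy (h : Appr u G φ) : eLpNorm u 2 nu ≤ 2 * eLpNorm G 2 volume := by
  refine fatou (fun n => (h.cont n).aestronglyMeasurable) h.memu.1 h.lim nu_ac
    (fun n => ?_) (h.tendsto_bnd 2 (by norm_num))
  refine (hardy_smooth' (h.smooth1 n) (h.supp n)).trans ?_
  gcongr
  exact h.bnd n

lemma const {φ : E3 → ℝ} (hφ : ContDiff ℝ ((⊤ : ℕ∞) : WithTop ℕ∞) φ) (hs : HasCompactSupport φ) :
    Appr φ (gradient φ) (fun _ => φ) where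
  smooth _ := hφ
  supp _ := hs
  memu := hφ.continuous.memLp_of_hasCompactSupport hs
  memG := by
    have h1 : Continuous (gradient φ) := by
      unfold gradient
      have := (hφ.of_le (by exact_mod_cast le_top : (1 : WithTop ℕ∞) ≤ _)).continuous_fderiv
        (by norm_num)
      fun_prop
    refine h1.memLp_of_hasCompactSupport ?_
    unfold gradient
    exact (hs.fderiv ℝ).comp_left (g := (InnerProductSpace.toDual ℝ E3).symm) (map_zero _)
  lim := by simp
  limG := by simp

lemma gradient_sub' {f g : E3 → ℝ} (hf : Differentiable ℝ f) (hg : Differentiable ℝ g) (x : E3) :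
    gradient (fun x => f x - g x) x = gradient f x - gradient g x := by
  unfold gradient
  rw [fderiv_fun_sub (hf x) (hg x), map_sub]

lemma sub (h : Appr u G φ) (h' : Appr v H ψ) :
    Appr (fun x => u x - v x) (fun x => G x - H x) (fun n x => φ n x - ψ n x) where
  smooth n := (h.smooth n).sub (h'.smooth n)
  supp n := (h.supp n).sub (h'.supp n)
  memu := h.memu.sub h'.memu
  memG := h.memG.sub h'.memG
  lim := by
    have h1 := h.lim.add h'.lim
    rw [add_zero] at h1
    refine tendsto_of_tendsto_of_tendsto_of_le_of_le tendsto_const_nhds h1 (fun _ => zero_le)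
      fun n => ?_
    have e : (fun x => φ n x - ψ n x - (u x - v x)) =
        (fun x => φ n x - u x) - (fun x => ψ n x - v x) := by
      ext x; simp only [Pi.sub_apply]; ring
    rw [e]
    exact eLpNorm_sub_le ((h.cont n).aestronglyMeasurable.sub h.memu.1)
      ((h'.cont n).aestronglyMeasurable.sub h'.memu.1) (by norm_num)
  limG := by
    have h1 := h.limG.add h'.limG
    rw [add_zero] at h1
    refine tendsto_of_tendsto_of_tendsto_of_le_of_le tendsto_const_nhds h1 (fun _ => zero_le)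
      fun n => ?_
    have e : (fun x => gradient (fun x => φ n x - ψ n x) x - (G x - H x)) =
        (fun x => gradient (φ n) x - G x) - (fun x => gradient (ψ n) x - H x) := by
      ext1 x
      rw [gradient_sub' ((h.smooth1 n).differentiable (by norm_num))
        ((h'.smooth1 n).differentiable (by norm_num))]
      simp only [Pi.sub_apply]
      abel
    rw [e]
    exact eLpNorm_sub_le ((h.contG n).aestronglyMeasurable.sub h.memG.1)
      ((h'.contG n).aestronglyMeasurable.sub h'.memG.1) (by norm_num)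

/-- approximation in `L⁶` -/
lemma lim6 (h : Appr u G φ) :
    Tendsto (fun n => eLpNorm (fun x => φ n x - u x) 6 volume) atTop (𝓝 0) := by
  have h1 : Tendsto (fun n => (sob : ℝ≥0∞) * eLpNorm (fun x => gradient (φ n) x - G x) 2 volume)
      atTop (𝓝 0) := by
    have := ENNReal.Tendsto.const_mul h.limG (Or.inr (ENNReal.coe_ne_top (r := sob)))
    rwa [mul_zero] at this
  exact tendsto_of_tendsto_of_tendsto_of_le_of_le tendsto_const_nhds h1 (fun _ => zero_le)
    fun n => ((const (h.smooth n) (h.supp n)).sub h).sobolev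

/-- approximation in `L²(dx/|x|²)` -/
lemma limnu (h : Appr u G φ) :
    Tendsto (fun n => eLpNorm (fun x => φ n x - u x) 2 nu) atTop (𝓝 0) := by
  have h1 : Tendsto (fun n => (2 : ℝ≥0∞) * eLpNorm (fun x => gradient (φ n) x - G x) 2 volume)
      atTop (𝓝 0) := by
    have := ENNReal.Tendsto.const_mul h.limG (Or.inr (by norm_num : (2:ℝ≥0∞) ≠ ⊤))
    rwa [mul_zero] at this
  exact tendsto_of_tendsto_of_tendsto_of_le_of_le tendsto_const_nhds h1 (fun _ => zero_le)
    fun n => ((const (h.smooth n) (h.supp n)).sub h).hardy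

lemma gradient_dil {f : E3 → ℝ} (hf : Differentiable ℝ f) (c t : ℝ) (x : E3) :
    gradient (fun x => c * f (t • x)) x = (c * t) • gradient f (t • x) := by
  have h1 : HasFDerivAt (fun x : E3 => t • x) (t • ContinuousLinearMap.id ℝ E3) x :=
    (hasFDerivAt_id x).const_smul t
  have h2 : HasFDerivAt (fun x => c * f (t • x))
      (c • ((fderiv ℝ f (t • x)).comp (t • ContinuousLinearMap.id ℝ E3))) x :=
    ((hf (t • x)).hasFDerivAt.comp x h1).const_mul c
  unfold gradient
  rw [h2.fderiv]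
  rw [ContinuousLinearMap.comp_smul, ContinuousLinearMap.comp_id, smul_smul]
  simp

lemma supp_dil {f : E3 → ℝ} (hf : HasCompactSupport f) (c : ℝ) {t : ℝ} (ht : t ≠ 0) :
    HasCompactSupport (fun x => c * f (t • x)) := by
  have h1 : HasCompactSupport (fun x => f (t • x)) :=
    hf.comp_homeomorph (Homeomorph.smulOfNeZero t ht)
  exact h1.mul_left

lemma dil (h : Appr u G φ) {t : ℝ} (ht : 0 < t) :
    Appr (fun x => √t * u (t • x)) (fun x => (√t * t) • G (t • x))
      (fun n x => √t * φ n (t • x)) where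
  smooth n := by
    have := h.smooth n
    fun_prop
  supp n := supp_dil (h.supp n) _ ht.ne'
  memu := by
    have h1 : MemLp (fun x => u (t • x)) 2 volume := by
      refine ⟨?_, ?_⟩
      · have hm := h.memu.1
        refine hm.comp_quasiMeasurePreserving (f := dilEquiv t ht.ne') ⟨(dilEquiv t ht.ne').measurable, ?_⟩
        rw [map_dil ht]
        exact Measure.smul_absolutelyContinuous
      · rw [eLpNorm_dil u 2 ht]
        refine ENNReal.mul_lt_top ?_ h.memu.2
        exact ENNReal.rpow_lt_top_of_nonneg (by positivity) ENNReal.ofReal_ne_top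
    exact h1.const_mul _
  memG := by
    have h1 : MemLp (fun x => G (t • x)) 2 volume := by
      refine ⟨?_, ?_⟩
      · have hm := h.memG.1
        refine hm.comp_quasiMeasurePreserving (f := dilEquiv t ht.ne') ⟨(dilEquiv t ht.ne').measurable, ?_⟩
        rw [map_dil ht]
        exact Measure.smul_absolutelyContinuous
      · rw [eLpNorm_dil G 2 ht]
        refine ENNReal.mul_lt_top ?_ h.memG.2
        exact ENNReal.rpow_lt_top_of_nonneg (by positivity) ENNReal.ofReal_ne_top
    exact h1.const_smul (√t * t)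
  lim := by
    have h1 : Tendsto (fun n => ‖√t‖ₑ * (ENNReal.ofReal (t ^ 3)⁻¹ ^ (1 / (2:ℝ≥0∞).toReal) *
        eLpNorm (fun x => φ n x - u x) 2 volume)) atTop (𝓝 0) := by
      have := ENNReal.Tendsto.const_mul (ENNReal.Tendsto.const_mul (a := ENNReal.ofReal (t ^ 3)⁻¹ ^
        (1 / (2:ℝ≥0∞).toReal)) h.lim (Or.inr
        (ENNReal.rpow_lt_top_of_nonneg (by positivity) ENNReal.ofReal_ne_top).ne))
        (Or.inr (enorm_ne_top (x := √t)))
      simpa using this
    refine h1.congr fun n => ?_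
    rw [← eLpNorm_dil (fun x => φ n x - u x) 2 ht, ← eLpNorm_const_smul]
    congr 1
    ext x
    simp [mul_sub]
  limG := by
    have h1 : Tendsto (fun n => ‖√t * t‖ₑ * (ENNReal.ofReal (t ^ 3)⁻¹ ^ (1 / (2:ℝ≥0∞).toReal) *
        eLpNorm (fun x => gradient (φ n) x - G x) 2 volume)) atTop (𝓝 0) := by
      have := ENNReal.Tendsto.const_mul (ENNReal.Tendsto.const_mul (a := ENNReal.ofReal (t ^ 3)⁻¹ ^
        (1 / (2:ℝ≥0∞).toReal)) h.limG (Or.inr
        (ENNReal.rpow_lt_top_of_nonneg (by positivity) ENNReal.ofReal_ne_top).ne))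
        (Or.inr (enorm_ne_top (x := √t * t)))
      simpa using this
    refine h1.congr fun n => ?_
    rw [← eLpNorm_dil (fun x => gradient (φ n) x - G x) 2 ht, ← eLpNorm_const_smul]
    congr 1
    ext1 x
    rw [gradient_dil ((h.smooth1 n).differentiable (by norm_num))]
    simp [smul_sub]

/-- the dilation difference -/
lemma diff (h : Appr u G φ) {t : ℝ} (ht : 1 ≤ t) (ht2 : t ≤ 2) :
    eLpNorm (fun x => u x - √t * u (t • x)) 2 nu ≤
      ENNReal.ofReal (4 * (t - 1)) * eLpNorm G 2 volume := by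
  have h0 : 0 < t := by linarith
  have h2 := h.sub (h.dil h0)
  refine fatou (fun n => (h2.cont n).aestronglyMeasurable) h2.memu.1 h2.lim nu_ac
    (fun n => ?_) (h.tendsto_bnd (ENNReal.ofReal (4 * (t - 1))) ENNReal.ofReal_ne_top)
  have h3 := diff_smooth (h.smooth1 n) (h.supp n) ht ht2
  have h4 : eLpNorm (fun x => φ n x - √t * φ n (t • x)) 2 nu ≤
      ENNReal.ofReal (4 * (t - 1)) * eLpNorm (gradient (φ n)) 2 volume := by
    rw [← ENNReal.pow_le_pow_left_iff two_ne_zero, mul_pow, eLpNorm_two_sq, eLpNorm_two_sq]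
    simp only [enorm_gradient]
    refine h3.trans (le_of_eq ?_)
    rw [ENNReal.ofReal_mul (by norm_num), mul_pow, ← mul_assoc, mul_comm (ENNReal.ofReal (t - 1) ^ 2)]
    congr 2
    norm_num
  refine h4.trans ?_
  gcongr
  exact h.bnd n

end Appr

end Pool.Agent.K4H52.HS
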