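import Mathlib

set_option autoImplicit false
open MeasureTheory Filter Topology Set
open scoped ENNReal NNReal

namespace Pool.Agent.K4H52.HS

/-- three-dimensional Euclidean space -/
abbrev E3 : Type := EuclideanSpace ℝ (Fin 3)

/-- the dilation as a measurable equivalence -/
noncomputable def dilEquiv (t : ℝ) (ht : t ≠ 0) : E3 ≃ᵐ E3 :=
  (Homeomorph.smulOfNeZero t ht).toMeasurableEquiv

lemma dilEquiv_apply (t : ℝ) (ht : t ≠ 0) (x : E3) : dilEquiv t ht x = t • x := rfl

lemma map_dil {t : ℝ} (ht : 0 < t) :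
    Measure.map (dilEquiv t ht.ne') (volume : Measure E3) = ENNReal.ofReal (t ^ 3)⁻¹ • volume := by
  have := Measure.map_addHaar_smul (volume : Measure E3) ht.ne'
  have h2 : Measure.map (dilEquiv t ht.ne') (volume : Measure E3) =
      Measure.map (fun x => t • x) volume := rfl
  rw [h2, this, finrank_euclideanSpace_fin, abs_of_pos (by positivity)]

/-- scaling for the lower integral -/
lemma lint_smul (f : E3 → ℝ≥0∞) {t : ℝ} (ht : 0 < t) :
    ∫⁻ x, f (t • x) = ENNReal.ofReal (t ^ 3)⁻¹ * ∫⁻ x, f x := by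
  have h := lintegral_map_equiv (μ := (volume : Measure E3)) f (dilEquiv t ht.ne')
  rw [map_dil ht, lintegral_smul_measure] at h
  exact h.symm

lemma eLpNorm_dil {F : Type*} [NormedAddCommGroup F] (f : E3 → F) (p : ℝ≥0∞) {t : ℝ} (ht : 0 < t) :
    eLpNorm (fun x => f (t • x)) p volume =
      ENNReal.ofReal (t ^ 3)⁻¹ ^ (1 / p.toReal) * eLpNorm f p volume := by
  have h := (dilEquiv t ht.ne').measurableEmbedding.eLpNorm_map_measure (g := f) (p := p) (μ := volume)
  rw [map_dil ht, eLpNorm_smul_measure_of_ne_zero] at h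
  · rw [show (fun x => f (t • x)) = f ∘ (dilEquiv t ht.ne') from rfl, ← h]
    simp
  · simp only [ne_eq, ENNReal.ofReal_eq_zero, not_le]
    positivity

end Pool.Agent.K4H52.HS
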