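import Pool.Agent.K4H52.HS.Main

set_option autoImplicit false
open MeasureTheory Filter Topology Set
open scoped ENNReal NNReal

namespace Pool.Agent.K4H52.HS

variable {u w : E3 → ℝ} {G W : E3 → E3} {φ ψ : ℕ → E3 → ℝ}

lemma hol {f g : E3 → ℝ} {p q r : ℝ≥0∞} {μ : Measure E3} (h : ENNReal.HolderTriple p q r)
    (hf : AEStronglyMeasurable f μ) (hg : AEStronglyMeasurable g μ) :
    eLpNorm (fun x => f x * g x) r μ ≤ eLpNorm f p μ * eLpNorm g q μ := by
  have h2 := eLpNorm_smul_le_mul_eLpNorm (𝕜 := ℝ) (E := ℝ) (p := p) (q := q) (r := r) (hpqr := h)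
    hg hf
  have e : (fun x => f x * g x) = f • g := by
    ext x
    simp
  rw [e]
  exact h2

lemma bound_term (B : Appr w W ψ) {r : E3 → ℝ} (hr : MemLp r 6 volume) :
    ∫⁻ x, ‖(w x / ‖x‖) * (w x * (r x * r x))‖ₑ ≤
      2 * eLpNorm W 2 volume * (sob * eLpNorm W 2 volume * (eLpNorm r 6 volume) ^ 2) := by
  have h1 : eLpNorm (fun x => r x * r x) 3 volume ≤ (eLpNorm r 6 volume) ^ 2 := by
    rw [pow_two]
    exact hol ht663 hr.1 hr.1
  have h2 : eLpNorm (fun x => w x * (r x * r x)) 2 volume ≤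
      eLpNorm w 6 volume * eLpNorm (fun x => r x * r x) 3 volume :=
    hol ht632 B.memu.1 (hr.1.mul hr.1)
  have h3 : ∫⁻ x, ‖(w x / ‖x‖) * (w x * (r x * r x))‖ₑ ≤
      eLpNorm (fun x => w x / ‖x‖) 2 volume * eLpNorm (fun x => w x * (r x * r x)) 2 volume := by
    rw [← eLpNorm_one_eq_lintegral_enorm]
    exact hol ht221 B.divm.1 (B.memu.1.mul (hr.1.mul hr.1))
  rw [eLpNorm_div] at h3
  refine h3.trans ?_
  gcongr
  · exact B.hardy
  · refine h2.trans ?_
    gcongr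
    exact B.sobolev

lemma int_comp (f : E3 → ℝ) {t : ℝ} (ht : 0 < t) :
    ∫ x, f (t • x) = (t ^ 3)⁻¹ * ∫ x, f x := by
  have := Measure.integral_comp_smul (volume : Measure E3) f t
  rw [this, finrank_euclideanSpace_fin, abs_of_pos (by positivity), smul_eq_mul]

lemma sqrt_pow5 {t : ℝ} (ht : 0 < t) : √t ^ 5 * (t ^ 3)⁻¹ = 1 / √t := by
  have h : √t ^ 2 = t := Real.sq_sqrt ht.le
  have h0 : 0 < √t := Real.sqrt_pos.2 ht
  have h2 : t ^ 3 = √t ^ 6 := by
    calc t ^ 3 = (√t ^ 2) ^ 3 := by rw [h]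
      _ = √t ^ 6 := by ring
  rw [h2]
  field_simp

/-- first energy identity -/
lemma energy (A : Appr u G φ) {t : ℝ} (ht : 0 < t) :
    ∫ x, inner ℝ (G x) (G x - (√t * t) • G (t • x)) =
      (1 / 2) * ∫ x, ‖G x - (√t * t) • G (t • x)‖ ^ 2 := by
  have B := A.dil ht
  have h1 : ∫ x, ‖(√t * t) • G (t • x)‖ ^ 2 = ∫ x, ‖G x‖ ^ 2 := by
    have h2 : ∀ x : E3, ‖(√t * t) • G (t • x)‖ ^ 2 = (√t * t) ^ 2 * ‖G (t • x)‖ ^ 2 := by
      intro x
      rw [norm_smul, mul_pow, Real.norm_eq_abs, sq_abs]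
    simp only [h2]
    rw [integral_const_mul, int_comp (fun x => ‖G x‖ ^ 2) ht, ← mul_assoc]
    have h3 : (√t * t) ^ 2 * (t ^ 3)⁻¹ = 1 := by
      rw [mul_pow, Real.sq_sqrt ht.le]
      field_simp
    rw [h3, one_mul]
  have iG : Integrable (fun x => ‖G x‖ ^ 2) volume := A.memG.integrable_norm_pow (by norm_num)
  have iGt : Integrable (fun x => ‖(√t * t) • G (t • x)‖ ^ 2) volume :=
    B.memG.integrable_norm_pow (by norm_num)
  have iI : Integrable (fun x => inner ℝ (G x) ((√t * t) • G (t • x))) volume :=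
    int_inner A.memG B.memG
  have e1 : ∫ x, inner ℝ (G x) (G x - (√t * t) • G (t • x)) = (∫ x, ‖G x‖ ^ 2) -
      ∫ x, inner ℝ (G x) ((√t * t) • G (t • x)) := by
    rw [← integral_sub iG iI]
    refine integral_congr_ae (Eventually.of_forall fun x => ?_)
    simp only [inner_sub_right, real_inner_self_eq_norm_sq]
  have e2 : ∫ x, ‖G x - (√t * t) • G (t • x)‖ ^ 2 = (∫ x, ‖G x‖ ^ 2) -
      2 * (∫ x, inner ℝ (G x) ((√t * t) • G (t • x))) + ∫ x, ‖(√t * t) • G (t • x)‖ ^ 2 := by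
    rw [← integral_const_mul, ← integral_sub iG (iI.const_mul 2), ← integral_add _ iGt]
    · refine integral_congr_ae (Eventually.of_forall fun x => ?_)
      simp only [norm_sub_sq_real]
    · exact iG.sub (iI.const_mul 2)
  rw [e1, e2, h1]
  ring

lemma qmp {t : ℝ} (ht : 0 < t) : Measure.QuasiMeasurePreserving (fun x : E3 => t • x)
    volume volume := by
  refine ⟨measurable_const_smul t, ?_⟩
  have := map_dil ht
  change Measure.map (dilEquiv t ht.ne') volume ≪ volume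
  rw [this]
  exact Measure.smul_absolutelyContinuous

/-- the absorption term -/
lemma absorb (A : Appr u G φ) (hz : ∀ᵐ x ∂(volume : Measure E3), x ∉ Om → u x = 0)
    (hnn : ∀ᵐ x ∂(volume : Measure E3), 0 ≤ u x) {t : ℝ} (ht : 1 ≤ t) :
    (1 / 5) * (1 - 1 / √t) * ∫ x, u x ^ 3 * u x ^ 2 ≤
      ∫ x, u x ^ 3 * (u x * (u x - √t * u (t • x))) := by
  have h0 : 0 < t := by linarith
  have B := A.dil h0
  have hz' : ∀ᵐ x ∂(volume : Measure E3), x ∉ Om → √t * u (t • x) = 0 := by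
    filter_upwards [(qmp h0).ae hz] with x hx hxO
    rw [hx fun h => hxO (smul_mem ht h), mul_zero]
  have hnn' : ∀ᵐ x ∂(volume : Measure E3), 0 ≤ √t * u (t • x) := by
    filter_upwards [(qmp h0).ae hnn] with x hx
    positivity
  have i1 : Integrable (fun x => u x ^ 3 * u x ^ 2) volume := int_mul A.cube (A.sq hz)
  have i2 : Integrable (fun x => (√t * u (t • x)) ^ 3 * (√t * u (t • x)) ^ 2) volume :=
    int_mul B.cube (B.sq hz')
  have e1 : ∫ x, (√t * u (t • x)) ^ 3 * (√t * u (t • x)) ^ 2 = (1 / √t) * ∫ x, u x ^ 3 * u x ^ 2 := by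
    have h2 : ∀ x : E3, (√t * u (t • x)) ^ 3 * (√t * u (t • x)) ^ 2 =
        √t ^ 5 * (u (t • x) ^ 3 * u (t • x) ^ 2) := by intro x; ring
    simp only [h2]
    rw [integral_const_mul, int_comp (fun x => u x ^ 3 * u x ^ 2) h0, ← mul_assoc, sqrt_pow5 h0]
  have e2 : (1 / 5) * (1 - 1 / √t) * ∫ x, u x ^ 3 * u x ^ 2 =
      ∫ x, (1 / 5) * (u x ^ 3 * u x ^ 2 - (√t * u (t • x)) ^ 3 * (√t * u (t • x)) ^ 2) := by
    rw [integral_const_mul, integral_sub i1 i2, e1]
    ring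
  rw [e2]
  refine integral_mono_ae ((i1.sub i2).const_mul _) ?_ ?_
  · have hw := (A.sub B)
    exact int_mul A.cube (MemLp.mul' hw.mem6 (mem3_of A.mem6 hz) (hpqr := ht362))
  · filter_upwards [hnn, hnn'] with x ha hb
    set a := u x
    set b := √t * u (t • x)
    have : a ^ 3 * (a * (a - b)) - 1 / 5 * (a ^ 3 * a ^ 2 - b ^ 3 * b ^ 2) =
        1 / 5 * ((a - b) ^ 2 * (4 * a ^ 3 + 3 * a ^ 2 * b + 2 * a * b ^ 2 + b ^ 3)) := by ring
    have h3 : 0 ≤ 1 / 5 * ((a - b) ^ 2 * (4 * a ^ 3 + 3 * a ^ 2 * b + 2 * a * b ^ 2 + b ^ 3)) := by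
      positivity
    linarith

lemma eLpNorm_dil6 (f : E3 → ℝ) {t : ℝ} (ht : 0 < t) :
    eLpNorm (fun x => √t * f (t • x)) 6 volume = eLpNorm f 6 volume := by
  have h1 : eLpNorm (fun x => √t * f (t • x)) 6 volume =
      ‖√t‖ₑ * eLpNorm (fun x => f (t • x)) 6 volume := by
    rw [← eLpNorm_const_smul]
    rfl
  rw [h1, eLpNorm_dil f 6 ht, ← mul_assoc]
  have h2 : ‖√t‖ₑ * ENNReal.ofReal (t ^ 3)⁻¹ ^ (1 / (6:ℝ≥0∞).toReal) = 1 := by
    rw [Real.enorm_eq_ofReal (by positivity), ENNReal.ofReal_rpow_of_pos (by positivity),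
      ← ENNReal.ofReal_mul (by positivity)]
    have h3 : √t * (t ^ 3)⁻¹ ^ (1 / (6:ℝ≥0∞).toReal) = 1 := by
      have h4 : (6:ℝ≥0∞).toReal = 6 := by simp
      rw [h4, Real.sqrt_eq_rpow, ← Real.rpow_natCast, ← Real.rpow_neg ht.le, ← Real.rpow_mul ht.le,
        ← Real.rpow_add ht]
      norm_num
    rw [h3, ENNReal.ofReal_one]
  rw [h2, one_mul]

lemma pt_ineq {a b d p q M n : ℝ} (ha : 0 ≤ a) (hb : 0 ≤ b) (hn : 0 < n) (hn2 : n < 2)
    (hd : |d| ≤ M) {c e s : ℝ} (hs : 0 ≤ s) (hs2 : s ^ 2 ≤ 2) (hp : p = d - a) (he : |e| ≤ M)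
    (hq : q = s * (e - c)) (hbc : b = s * c) :
    |a ^ 3 * ((a - b) / n) - 1 / 4 * (a ^ 3 * (a / n) - b ^ 3 * (b / n))| ≤
      12 * M ^ 2 * ((a - b) / n) ^ 2 + 2 * |(a - b) / n * ((a - b) * (p * p))| +
        2 * |(a - b) / n * ((a - b) * (q * q))| := by
  have h1 : a ^ 3 * ((a - b) / n) - 1 / 4 * (a ^ 3 * (a / n) - b ^ 3 * (b / n)) =
      1 / 4 * ((a - b) ^ 2 * (3 * a ^ 2 + 2 * a * b + b ^ 2)) / n := by
    field_simp
    ring
  have h2 : (a - b) / n * ((a - b) * (p * p)) = (a - b) ^ 2 * p ^ 2 / n := by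
    field_simp
  have h3 : (a - b) / n * ((a - b) * (q * q)) = (a - b) ^ 2 * q ^ 2 / n := by
    field_simp
  rw [h1, h2, h3, abs_of_nonneg (by positivity), abs_of_nonneg (by positivity),
    abs_of_nonneg (by positivity)]
  have hd2 : d ^ 2 ≤ M ^ 2 := by
    rw [← sq_abs]; exact pow_le_pow_left₀ (abs_nonneg _) hd 2
  have he2 : e ^ 2 ≤ M ^ 2 := by
    rw [← sq_abs]; exact pow_le_pow_left₀ (abs_nonneg _) he 2
  have h4 : a ^ 2 ≤ 2 * M ^ 2 + 2 * p ^ 2 := by
    have : a = d - p := by rw [hp]; ring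
    rw [this]
    nlinarith [sq_nonneg (d + p)]
  have h5 : b ^ 2 ≤ 4 * M ^ 2 + 2 * q ^ 2 := by
    have e1 : b = s * e - q := by rw [hq, hbc]; ring
    have e2 : (s * e) ^ 2 ≤ 2 * M ^ 2 := by
      rw [mul_pow]
      exact mul_le_mul hs2 he2 (sq_nonneg _) (by norm_num)
    rw [e1]
    nlinarith [sq_nonneg (s * e + q)]
  have h6 : 1 / 4 * (3 * a ^ 2 + 2 * a * b + b ^ 2) ≤ 6 * M ^ 2 + 2 * p ^ 2 + 2 * q ^ 2 := by
    nlinarith [sq_nonneg (a - b)]
  have h7 : 1 / 4 * ((a - b) ^ 2 * (3 * a ^ 2 + 2 * a * b + b ^ 2)) / n ≤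
      (a - b) ^ 2 * (6 * M ^ 2 + 2 * p ^ 2 + 2 * q ^ 2) / n := by
    rw [show 1 / 4 * ((a - b) ^ 2 * (3 * a ^ 2 + 2 * a * b + b ^ 2)) =
      (a - b) ^ 2 * (1 / 4 * (3 * a ^ 2 + 2 * a * b + b ^ 2)) by ring]
    gcongr
  refine h7.trans ?_
  have h8 : (a - b) ^ 2 * (6 * M ^ 2) / n ≤ 12 * M ^ 2 * ((a - b) / n) ^ 2 := by
    rw [div_pow, mul_div_assoc', div_le_div_iff₀ hn (by positivity)]
    have : 0 ≤ M ^ 2 * (a - b) ^ 2 * n := by positivity
    nlinarith
  have h9 : (a - b) ^ 2 * (6 * M ^ 2 + 2 * p ^ 2 + 2 * q ^ 2) / n =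
      (a - b) ^ 2 * (6 * M ^ 2) / n + 2 * ((a - b) ^ 2 * p ^ 2 / n) +
        2 * ((a - b) ^ 2 * q ^ 2 / n) := by
    field_simp
  rw [h9]
  linarith

/-- the critical term -/
lemma crit (A : Appr u G φ) (hz : ∀ᵐ x ∂(volume : Measure E3), x ∉ Om → u x = 0)
    (hnn : ∀ᵐ x ∂(volume : Measure E3), 0 ≤ u x) (k : ℕ) {M : ℝ} (hM : ∀ x, |φ k x| ≤ M)
    {t : ℝ} (ht : 1 ≤ t) (ht2 : t ≤ 2) :
    ENNReal.ofReal (∫ x, u x ^ 3 * ((u x - √t * u (t • x)) / ‖x‖)) ≤
      ENNReal.ofReal (192 * M ^ 2 * (t - 1) ^ 2) * eLpNorm G 2 volume ^ 2 +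
      8 * sob * eLpNorm (fun x => φ k x - u x) 6 volume ^ 2 *
        eLpNorm (fun x => G x - (√t * t) • G (t • x)) 2 volume ^ 2 := by
  have h0 : 0 < t := by linarith
  have B := A.dil h0
  have C := A.sub B
  have hM0 : 0 ≤ M := (abs_nonneg _).trans (hM 0)
  have hnn' : ∀ᵐ x ∂(volume : Measure E3), 0 ≤ √t * u (t • x) := by
    filter_upwards [(qmp h0).ae hnn] with x hx
    positivity
  have hz' : ∀ᵐ x ∂(volume : Measure E3), x ∉ Om → √t * u (t • x) = 0 := by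
    filter_upwards [(qmp h0).ae hz] with x hx hxO
    rw [hx fun h => hxO (smul_mem ht h), mul_zero]
  have i0 : Integrable (fun x => u x ^ 3 * ((u x - √t * u (t • x)) / ‖x‖)) volume :=
    int_mul A.cube C.divm
  have i1 : Integrable (fun x => u x ^ 3 * (u x / ‖x‖)) volume := int_mul A.cube A.divm
  have i2 : Integrable (fun x => (√t * u (t • x)) ^ 3 * ((√t * u (t • x)) / ‖x‖)) volume :=
    int_mul B.cube B.divm
  have e1 : ∫ x, (√t * u (t • x)) ^ 3 * ((√t * u (t • x)) / ‖x‖) = ∫ x, u x ^ 3 * (u x / ‖x‖) := by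
    have h2 : ∀ x : E3, (√t * u (t • x)) ^ 3 * ((√t * u (t • x)) / ‖x‖) =
        t ^ 3 * (u (t • x) ^ 3 * (u (t • x) / ‖t • x‖)) := by
      intro x
      rw [norm_smul, Real.norm_of_nonneg h0.le]
      have h3 : √t ^ 4 = t ^ 2 := by
        calc √t ^ 4 = (√t ^ 2) ^ 2 := by ring
          _ = t ^ 2 := by rw [Real.sq_sqrt h0.le]
      rcases eq_or_ne x 0 with rfl | hx
      · simp
      · have hn : ‖x‖ ≠ 0 := norm_ne_zero_iff.2 hx
        field_simp
        rw [h3]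
        ring
    simp only [h2]
    rw [integral_const_mul, int_comp (fun x => u x ^ 3 * (u x / ‖x‖)) h0, ← mul_assoc,
      mul_inv_cancel₀ (by positivity), one_mul]
  set h : E3 → ℝ := fun x => u x ^ 3 * ((u x - √t * u (t • x)) / ‖x‖) -
    1 / 4 * (u x ^ 3 * (u x / ‖x‖) - (√t * u (t • x)) ^ 3 * ((√t * u (t • x)) / ‖x‖)) with hh
  have e2 : ∫ x, u x ^ 3 * ((u x - √t * u (t • x)) / ‖x‖) = ∫ x, h x := by
    have i3 : Integrable (fun x => 1 / 4 * (u x ^ 3 * (u x / ‖x‖) -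
      (√t * u (t • x)) ^ 3 * ((√t * u (t • x)) / ‖x‖))) volume := (i1.sub i2).const_mul _
    rw [hh, integral_sub i0 i3, integral_const_mul, integral_sub i1 i2, e1]
    ring
  rw [e2]
  have e3 : ENNReal.ofReal (∫ x, h x) ≤ ∫⁻ x, ‖h x‖ₑ := by
    refine le_trans ?_ (enorm_integral_le_lintegral_enorm _)
    rw [Real.enorm_eq_ofReal_abs]
    exact ENNReal.ofReal_le_ofReal (le_abs_self _)
  refine e3.trans ?_
  set r : E3 → ℝ := fun x => φ k x - u x with hr
  set rt : E3 → ℝ := fun x => √t * r (t • x) with hrt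
  have hr6 : MemLp r 6 volume := (A.memp k).mem6.sub A.mem6
  have hrt6 : MemLp rt 6 volume := ((A.memp k).dil h0).mem6.sub B.mem6 |>.ae_eq
    (Eventually.of_forall fun x => by simp only [Pi.sub_apply, hrt, hr]; ring)
  have key : ∀ᵐ x ∂(volume : Measure E3), ‖h x‖ₑ ≤ ENNReal.ofReal (12 * M ^ 2) *
      ‖(u x - √t * u (t • x)) / ‖x‖‖ₑ ^ 2 +
      2 * ‖((u x - √t * u (t • x)) / ‖x‖) * ((u x - √t * u (t • x)) * (r x * r x))‖ₑ +
      2 * ‖((u x - √t * u (t • x)) / ‖x‖) * ((u x - √t * u (t • x)) * (rt x * rt x))‖ₑ := by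
    filter_upwards [hz, hz', hnn, hnn'] with x h1 h2 h3 h4
    by_cases hx : x ∈ Om
    · have hn : 0 < ‖x‖ := norm_pos_iff.2 (ne_zero_of_mem hx)
      have := pt_ineq (a := u x) (b := √t * u (t • x)) (d := φ k x) (p := r x) (q := rt x) (M := M)
        (n := ‖x‖) (c := u (t • x)) (e := φ k (t • x)) (s := √t) h3 h4 hn (norm_lt hx) (hM x)
        (Real.sqrt_nonneg t) (by rw [Real.sq_sqrt h0.le]; exact ht2) rfl (hM _) rfl rfl
      simp only [Real.enorm_eq_ofReal_abs]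
      rw [← ENNReal.ofReal_pow (abs_nonneg _), sq_abs, ← ENNReal.ofReal_mul (by positivity)]
      have h5 : ∀ y : ℝ, (2 : ℝ≥0∞) * ENNReal.ofReal y = ENNReal.ofReal (2 * y) := by
        intro y
        rw [ENNReal.ofReal_mul (by norm_num)]
        simp
      rw [h5, h5, ← ENNReal.ofReal_add (by positivity) (by positivity),
        ← ENNReal.ofReal_add (by positivity) (by positivity)]
      exact ENNReal.ofReal_le_ofReal this
    · have : h x = 0 := by
        simp only [hh]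
        rw [h2 hx, h1 hx]
        ring
      rw [this]
      simp
  refine (lintegral_mono_ae key).trans ?_
  set W : E3 → E3 := fun x => G x - (√t * t) • G (t • x) with hW
  set w : E3 → ℝ := fun x => u x - √t * u (t • x) with hw
  have m1 : AEMeasurable (fun x => ‖w x / ‖x‖‖ₑ) volume := C.divm.1.enorm
  have m2 : AEMeasurable (fun x => ‖(w x / ‖x‖) * (w x * (r x * r x))‖ₑ) volume :=
    (C.divm.1.mul (C.memu.1.mul (hr6.1.mul hr6.1))).enorm
  rw [lintegral_add_left' (by fun_prop), lintegral_add_left' (by fun_prop),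
    lintegral_const_mul' _ _ ENNReal.ofReal_ne_top, lintegral_const_mul' _ _ (by norm_num),
    lintegral_const_mul' _ _ (by norm_num)]
  have t1 : ∫⁻ x, ‖w x / ‖x‖‖ₑ ^ 2 ≤ ENNReal.ofReal (16 * (t - 1) ^ 2) * eLpNorm G 2 volume ^ 2 := by
    rw [← eLpNorm_two_sq (fun x => w x / ‖x‖), eLpNorm_div]
    calc eLpNorm w 2 nu ^ 2 ≤ (ENNReal.ofReal (4 * (t - 1)) * eLpNorm G 2 volume) ^ 2 := by
          gcongr
          exact A.diff ht ht2
      _ = ENNReal.ofReal (16 * (t - 1) ^ 2) * eLpNorm G 2 volume ^ 2 := by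
          rw [mul_pow, ← ENNReal.ofReal_pow (by linarith)]
          congr 2
          ring
  have t2 := bound_term C hr6
  have t3 := bound_term C hrt6
  have t4 : eLpNorm rt 6 volume = eLpNorm r 6 volume := eLpNorm_dil6 r h0
  rw [t4] at t3
  calc _ ≤ ENNReal.ofReal (12 * M ^ 2) * (ENNReal.ofReal (16 * (t - 1) ^ 2) *
        eLpNorm G 2 volume ^ 2) + 2 * (2 * eLpNorm W 2 volume * (sob * eLpNorm W 2 volume *
          (eLpNorm r 6 volume) ^ 2)) + 2 * (2 * eLpNorm W 2 volume * (sob * eLpNorm W 2 volume *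
          (eLpNorm r 6 volume) ^ 2)) := by gcongr
    _ = _ := by
        rw [← mul_assoc, ← ENNReal.ofReal_mul (by positivity)]
        rw [show 12 * M ^ 2 * (16 * (t - 1) ^ 2) = 192 * M ^ 2 * (t - 1) ^ 2 by ring]
        ring

/-- **Nonexistence.** -/
theorem no_solution (A : Appr u G φ) (hs : ∀ n, tsupport (φ n) ⊆ Om)
    (hpos : ∀ᵐ x ∂(volume : Measure E3), x ∈ Om → 0 < u x)
    (hweak : ∀ ψ : E3 → ℝ, ContDiff ℝ ((⊤ : ℕ∞) : WithTop ℕ∞) ψ → HasCompactSupport ψ →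
      tsupport ψ ⊆ Om →
      ∫ x, (inner ℝ (G x) (gradient ψ x) + u x ^ 4 * ψ x - u x ^ 3 * ψ x / ‖x‖) = 0) : False := by
  have hz := A.zero_out hs
  have hnn : ∀ᵐ x ∂(volume : Measure E3), 0 ≤ u x := by
    filter_upwards [hz, hpos] with x h1 h2
    by_cases h : x ∈ Om
    · exact (h2 h).le
    · rw [h1 h]
  set I5 := ∫ x, u x ^ 3 * u x ^ 2 with hI5
  set g : ℝ := (eLpNorm G 2 volume).toReal with hg
  -- choice of `k`
  obtain ⟨k, hk⟩ : ∃ k, 8 * sob * eLpNorm (fun x => φ k x - u x) 6 volume ^ 2 ≤ 1 / 2 := by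
    have h1 : Tendsto (fun k => 8 * sob * eLpNorm (fun x => φ k x - u x) 6 volume ^ 2) atTop
        (𝓝 ((8 : ℝ≥0∞) * (sob : ℝ≥0∞) * 0 ^ 2)) :=
      ENNReal.Tendsto.const_mul (ENNReal.Tendsto.pow A.lim6)
        (Or.inr (ENNReal.mul_ne_top (by norm_num) ENNReal.coe_ne_top))
    rw [zero_pow two_ne_zero, mul_zero] at h1
    have h2 : ∀ᶠ k in atTop, 8 * sob * eLpNorm (fun x => φ k x - u x) 6 volume ^ 2 < 1 / 2 :=
      h1.eventually_lt_const (by norm_num)
    obtain ⟨k, hk⟩ := h2.exists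
    exact ⟨k, hk.le⟩
  obtain ⟨M, hM⟩ : ∃ M : ℝ, ∀ x, |φ k x| ≤ M := by
    obtain ⟨M, hM⟩ := (A.cont k).bounded_above_of_compact_support (A.supp k)
    exact ⟨M, hM⟩
  -- the inequality for each `t`
  have key : ∀ t : ℝ, 1 ≤ t → t ≤ 2 →
      (1 / 5) * (1 - 1 / √t) * I5 ≤ 192 * M ^ 2 * (t - 1) ^ 2 * g ^ 2 := by
    intro t ht ht2
    have h0 : 0 < t := by linarith
    have B := A.dil h0
    have C := A.sub B
    have hsC : ∀ n, tsupport (fun x => φ n x - √t * φ n (t • x)) ⊆ Om := by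
      intro n
      refine (tsupport_sub (φ n) (fun x => √t * φ n (t • x))).trans (union_subset (hs n) ?_)
      refine (tsupport_mul_subset_right (f := fun _ : E3 => √t)
        (g := fun x : E3 => φ n (t • x))).trans ?_
      intro x hx
      have h1 := tsupport_comp_subset_preimage (φ n) (continuous_const_smul t : Continuous
        fun x : E3 => t • x) hx
      exact smul_mem ht (hs n h1)
    have w1 := weak_ext A hz hweak C hsC
    have w2 := energy A h0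
    have w3 := absorb A hz hnn ht
    have w4 := crit A hz hnn k hM ht ht2
    set K : ℝ := ∫ x, ‖G x - (√t * t) • G (t • x)‖ ^ 2 with hK
    have hK0 : 0 ≤ K := integral_nonneg fun x => by positivity
    have w5 : eLpNorm (fun x => G x - (√t * t) • G (t • x)) 2 volume ^ 2 = ENNReal.ofReal K := by
      rw [eLpNorm_two_sq, hK, ofReal_integral_eq_lintegral_ofReal
        (C.memG.integrable_norm_pow (by norm_num)) (Eventually.of_forall fun x => by positivity)]
      refine lintegral_congr fun x => ?_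
      rw [ENNReal.ofReal_pow (norm_nonneg _), ofReal_norm]
    have w6 : eLpNorm G 2 volume ^ 2 = ENNReal.ofReal (g ^ 2) := by
      rw [ENNReal.ofReal_pow ENNReal.toReal_nonneg, ENNReal.ofReal_toReal A.memG.2.ne]
    have w7 : ENNReal.ofReal (∫ x, u x ^ 3 * ((u x - √t * u (t • x)) / ‖x‖)) ≤
        ENNReal.ofReal (192 * M ^ 2 * (t - 1) ^ 2 * g ^ 2 + K / 2) := by
      refine w4.trans ?_
      rw [w5, w6, ← ENNReal.ofReal_mul (by positivity), ENNReal.ofReal_add (by positivity)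
        (by positivity)]
      gcongr
      calc _ ≤ (1 / 2 : ℝ≥0∞) * ENNReal.ofReal K := by gcongr
        _ = ENNReal.ofReal (K / 2) := by
          rw [div_eq_mul_inv K, mul_comm K, ENNReal.ofReal_mul (by norm_num), one_div]
          congr 1
          rw [ENNReal.ofReal_inv_of_pos (by norm_num)]
          simp
    have w8 := (ENNReal.ofReal_le_ofReal_iff (by positivity)).1 w7
    rw [w2] at w1
    linarith
  -- conclusion
  have hI5nn : 0 ≤ I5 := by
    refine integral_nonneg_of_ae ?_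
    filter_upwards [hnn] with x hx
    positivity
  have hI50 : I5 ≤ 0 := by
    by_contra hcon
    rw [not_le] at hcon
    set D : ℝ := 192 * M ^ 2 * g ^ 2 with hD
    have hD0 : 0 ≤ D := by positivity
    set δ : ℝ := min 1 (I5 / (60 * (D + 1))) with hδ
    have hδ0 : 0 < δ := lt_min one_pos (by positivity)
    have hδ1 : δ ≤ 1 := min_le_left _ _
    have hδ2 : δ ≤ I5 / (60 * (D + 1)) := min_le_right _ _
    have h1 := key (1 + δ) (by linarith) (by linarith)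
    set s : ℝ := √(1 + δ) with hs'
    have hs2 : s ^ 2 = 1 + δ := Real.sq_sqrt (by linarith)
    have hs1 : 1 ≤ s := Real.one_le_sqrt.2 (by linarith)
    have hs3 : s ≤ 2 := by nlinarith
    have h2 : δ / 6 ≤ 1 - 1 / s := by
      have h3 : 0 < s := by linarith
      have h4 : 1 - 1 / s = (s - 1) / s := by field_simp
      rw [h4, div_le_div_iff₀ (by norm_num) h3]
      have h5 : δ = (s - 1) * (s + 1) := by nlinarith
      rw [h5]
      have h6 : 0 ≤ s - 1 := by linarith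
      nlinarith [mul_nonneg h6 (by nlinarith : (0:ℝ) ≤ 6 - s * (s + 1))]
    have h3 : 1 / 5 * (δ / 6) * I5 ≤ 1 / 5 * (1 - 1 / s) * I5 := by gcongr
    have h4 : 192 * M ^ 2 * (1 + δ - 1) ^ 2 * g ^ 2 = D * δ ^ 2 := by rw [hD]; ring
    rw [h4] at h1
    have h5 : δ * (60 * (D + 1)) ≤ I5 := by
      rwa [le_div_iff₀ (by positivity)] at hδ2
    have h6 : 1 / 5 * (δ / 6) * I5 ≤ D * δ ^ 2 := h3.trans h1
    have h7 : I5 ≤ 30 * D * δ := by
      have : δ * I5 ≤ δ * (30 * D * δ) := by nlinarith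
      exact le_of_mul_le_mul_left this hδ0
    nlinarith
  have hI : I5 = 0 := le_antisymm hI50 hI5nn
  rw [hI5, integral_eq_zero_iff_of_nonneg_ae
    (by filter_upwards [hnn] with x hx; positivity) (int_mul A.cube (A.sq hz))] at hI
  have hOm : ∀ᵐ x ∂(volume : Measure E3), x ∉ Om := by
    filter_upwards [hI, hpos] with x h1 h2 h3
    have h4 : 0 < u x := h2 h3
    have h5 : u x ^ 3 * u x ^ 2 = 0 := h1
    have : 0 < u x ^ 3 * u x ^ 2 := by positivity
    linarith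
  have h1 : volume Om = 0 := by
    have := ae_iff.1 hOm
    simpa using this
  exact (Metric.measure_ball_pos volume ctr one_pos).ne' h1

end Pool.Agent.K4H52.HS
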