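import Pool.Agent.K4H52.HS.Basic

set_option autoImplicit false
open MeasureTheory Filter Topology Set
open scoped ENNReal NNReal

namespace Pool.Agent.K4H52.HS

lemma ftc_bound {g g' : ℝ → ℝ} {a b : ℝ} (hab : a ≤ b)
    (hd : ∀ σ ∈ Icc a b, HasDerivAt g (g' σ) σ) (hc : ContinuousOn g' (Icc a b)) :
    ‖g b - g a‖ₑ ≤ ∫⁻ σ in Ioc a b, ‖g' σ‖ₑ := by
  have h1 : ∫ σ in a..b, g' σ = g b - g a := by
    apply intervalIntegral.integral_eq_sub_of_hasDerivAt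
    · intro x hx
      rw [uIcc_of_le hab] at hx
      exact hd x hx
    · apply ContinuousOn.intervalIntegrable
      rw [uIcc_of_le hab]
      exact hc
  rw [← h1, intervalIntegral.integral_of_le hab]
  exact enorm_integral_le_lintegral_enorm _

/-- the weight `1/|x|^2` -/
noncomputable def wt (x : E3) : ℝ≥0 := (‖x‖₊ ^ 2)⁻¹

lemma measurable_wt : Measurable wt := by
  unfold wt
  fun_prop

/-- the measure `dx/|x|^2` -/
noncomputable def nu : Measure E3 := (volume : Measure E3).withDensity (fun x => (wt x : ℝ≥0∞))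

lemma nu_ac : nu ≪ (volume : Measure E3) := withDensity_absolutelyContinuous _ _

lemma lint_nu (f : E3 → ℝ≥0∞) : ∫⁻ x, f x ∂nu = ∫⁻ x, (wt x : ℝ≥0∞) * f x := by
  unfold nu
  rw [lintegral_withDensity_eq_lintegral_mul_non_measurable _ measurable_wt.coe_nnreal_ennreal
    (Eventually.of_forall fun x => ENNReal.coe_lt_top)]
  rfl

lemma wt_mul_le (x : E3) : (wt x : ℝ≥0∞) * ‖x‖ₑ ^ 2 ≤ 1 := by
  have h : (wt x : ℝ≥0∞) * ‖x‖ₑ ^ 2 = ((wt x * ‖x‖₊ ^ 2 : ℝ≥0) : ℝ≥0∞) := by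
    rw [enorm_eq_nnnorm]
    push_cast
    rfl
  rw [h]
  unfold wt
  norm_cast
  rcases eq_or_ne x 0 with rfl | hx
  · simp
  · rw [inv_mul_cancel₀ (by simpa using hx)]

/-- Cauchy-Schwarz for lower integrals -/
lemma cs_lint {α : Type*} [MeasurableSpace α] (μ : Measure α) {f g : α → ℝ≥0∞}
    (hf : AEMeasurable f μ) (hg : AEMeasurable g μ) :
    (∫⁻ a, f a * g a ∂μ) ^ 2 ≤ (∫⁻ a, f a ^ 2 ∂μ) * ∫⁻ a, g a ^ 2 ∂μ := by
  have h := ENNReal.lintegral_mul_le_Lp_mul_Lq μ Real.HolderConjugate.two_two hf hg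
  have h2 : (∫⁻ a, f a * g a ∂μ) ^ 2 ≤
      ((∫⁻ a, f a ^ (2:ℝ) ∂μ) ^ (1 / (2:ℝ)) * (∫⁻ a, g a ^ (2:ℝ) ∂μ) ^ (1 / (2:ℝ))) ^ 2 := by
    gcongr
    exact h
  refine h2.trans (le_of_eq ?_)
  rw [mul_pow, ← ENNReal.rpow_natCast, ← ENNReal.rpow_natCast, ← ENNReal.rpow_mul,
    ← ENNReal.rpow_mul]
  norm_num

lemma lint_rpow : ∫⁻ σ in Ioi (1:ℝ), ENNReal.ofReal (σ ^ (-(3/2) : ℝ)) = 2 := by
  rw [← ofReal_integral_eq_lintegral_ofReal
    (integrableOn_Ioi_rpow_of_lt (by norm_num) one_pos)]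
  · rw [integral_Ioi_rpow_of_lt (by norm_num) one_pos]
    norm_num
  · filter_upwards [self_mem_ae_restrict measurableSet_Ioi] with σ hσ
    have h0 : (0:ℝ) < σ := lt_trans one_pos hσ
    positivity

/-- **Hardy's inequality** in dimension three for smooth compactly supported functions. -/
theorem hardy_smooth {φ : E3 → ℝ} (hφ : ContDiff ℝ 1 φ) (hs : HasCompactSupport φ) :
    ∫⁻ x, ‖φ x‖ₑ ^ 2 ∂nu ≤ 4 * ∫⁻ x, ‖fderiv ℝ φ x‖ₑ ^ 2 := by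
  rw [lint_nu]
  have hcont : Continuous (fderiv ℝ φ) := hφ.continuous_fderiv (by norm_num)
  have key : ∀ x : E3, (wt x : ℝ≥0∞) * ‖φ x‖ₑ ^ 2 ≤
      2 * ∫⁻ σ in Ioi (1:ℝ), ENNReal.ofReal (σ ^ (3/2 : ℝ)) * ‖fderiv ℝ φ (σ • x)‖ₑ ^ 2 := by
    intro x
    rcases eq_or_ne x 0 with rfl | hx
    · simp [wt]
    obtain ⟨R, hR⟩ := hs.isCompact.isBounded.subset_closedBall (0:E3)
    have hxn : 0 < ‖x‖ := norm_pos_iff.2 hx
    obtain ⟨T, hT1, hT2⟩ : ∃ T : ℝ, 1 ≤ T ∧ R < T * ‖x‖ := by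
      refine ⟨max 1 ((|R| + 1) / ‖x‖), le_max_left _ _, ?_⟩
      have : (|R| + 1) / ‖x‖ * ‖x‖ ≤ max 1 ((|R| + 1) / ‖x‖) * ‖x‖ := by
        gcongr
        exact le_max_right _ _
      rw [div_mul_cancel₀ _ hxn.ne'] at this
      linarith [le_abs_self R]
    have hT0 : φ (T • x) = 0 := by
      by_contra hne
      have h1 : T • x ∈ tsupport φ := subset_tsupport _ hne
      have h2 := hR h1
      rw [mem_closedBall_zero_iff, norm_smul, Real.norm_of_nonneg (by linarith)] at h2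
      linarith
    have h1 : ‖φ x‖ₑ ≤ ∫⁻ σ in Ioc (1:ℝ) T, ‖x‖ₑ * ‖fderiv ℝ φ (σ • x)‖ₑ := by
      have h2 := ftc_bound (g := fun σ => φ (σ • x)) (g' := fun σ => fderiv ℝ φ (σ • x) x) hT1
        (fun σ _ => by
          have h3 : HasDerivAt (fun σ : ℝ => σ • x) ((1:ℝ) • x) σ := (hasDerivAt_id σ).smul_const x
          have h4 : HasFDerivAt φ (fderiv ℝ φ (σ • x)) (σ • x) :=
            (hφ.differentiable (by norm_num)).differentiableAt.hasFDerivAt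
          have := h4.comp_hasDerivAt σ h3
          rw [one_smul] at this
          exact this)
        (by
          apply Continuous.continuousOn
          fun_prop)
      simp only [hT0, one_smul, zero_sub, enorm_neg] at h2
      refine h2.trans (lintegral_mono fun σ => ?_)
      rw [mul_comm]
      exact (fderiv ℝ φ (σ • x)).le_opENorm x
    have h2 : ‖φ x‖ₑ ≤ ‖x‖ₑ * ∫⁻ σ in Ioi (1:ℝ), ‖fderiv ℝ φ (σ • x)‖ₑ := by
      rw [← lintegral_const_mul' _ _ enorm_ne_top]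
      exact h1.trans (lintegral_mono_set Ioc_subset_Ioi_self)
    have h3 : (∫⁻ σ in Ioi (1:ℝ), ‖fderiv ℝ φ (σ • x)‖ₑ) ^ 2 ≤
        2 * ∫⁻ σ in Ioi (1:ℝ), ENNReal.ofReal (σ ^ (3/2 : ℝ)) * ‖fderiv ℝ φ (σ • x)‖ₑ ^ 2 := by
      have h4 := cs_lint (volume.restrict (Ioi (1:ℝ)))
        (f := fun σ => ENNReal.ofReal (σ ^ (-(3/4) : ℝ)))
        (g := fun σ => ENNReal.ofReal (σ ^ (3/4 : ℝ)) * ‖fderiv ℝ φ (σ • x)‖ₑ)
        (by fun_prop) (by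
          have hm : Measurable fun σ : ℝ => ‖fderiv ℝ φ (σ • x)‖ₑ :=
            (hcont.comp (by fun_prop : Continuous fun σ : ℝ => σ • x)).measurable.enorm
          fun_prop)
      have h5 : ∫⁻ σ in Ioi (1:ℝ), ‖fderiv ℝ φ (σ • x)‖ₑ =
          ∫⁻ σ in Ioi (1:ℝ), ENNReal.ofReal (σ ^ (-(3/4) : ℝ)) *
            (ENNReal.ofReal (σ ^ (3/4 : ℝ)) * ‖fderiv ℝ φ (σ • x)‖ₑ) := by
        refine setLIntegral_congr_fun measurableSet_Ioi fun σ hσ => ?_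
        have h0 : (0:ℝ) < σ := lt_trans one_pos hσ
        rw [← mul_assoc, ← ENNReal.ofReal_mul (by positivity), ← Real.rpow_add h0]
        norm_num
      have h6 : ∫⁻ σ in Ioi (1:ℝ), ENNReal.ofReal (σ ^ (-(3/4) : ℝ)) ^ 2 = 2 := by
        have h7 : ∫⁻ σ in Ioi (1:ℝ), ENNReal.ofReal (σ ^ (-(3/4) : ℝ)) ^ 2 =
            ∫⁻ σ in Ioi (1:ℝ), ENNReal.ofReal (σ ^ (-(3/2) : ℝ)) := by
          refine setLIntegral_congr_fun measurableSet_Ioi fun σ hσ => ?_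
          have h0 : (0:ℝ) < σ := lt_trans one_pos hσ
          rw [← ENNReal.ofReal_pow (by positivity), ← Real.rpow_natCast, ← Real.rpow_mul h0.le]
          norm_num
        rw [h7, lint_rpow]
      rw [h5]
      refine h4.trans ?_
      rw [h6]
      gcongr 2 * ?_
      refine setLIntegral_mono' measurableSet_Ioi fun σ hσ => le_of_eq ?_
      have h0 : (0:ℝ) < σ := lt_trans one_pos hσ
      rw [mul_pow, ← ENNReal.ofReal_pow (by positivity), ← Real.rpow_natCast, ← Real.rpow_mul h0.le]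
      norm_num
    calc (wt x : ℝ≥0∞) * ‖φ x‖ₑ ^ 2 ≤ (wt x : ℝ≥0∞) * (‖x‖ₑ *
          ∫⁻ σ in Ioi (1:ℝ), ‖fderiv ℝ φ (σ • x)‖ₑ) ^ 2 := by gcongr
      _ = ((wt x : ℝ≥0∞) * ‖x‖ₑ ^ 2) * (∫⁻ σ in Ioi (1:ℝ), ‖fderiv ℝ φ (σ • x)‖ₑ) ^ 2 := by ring
      _ ≤ 1 * (∫⁻ σ in Ioi (1:ℝ), ‖fderiv ℝ φ (σ • x)‖ₑ) ^ 2 := by
          gcongr
          exact wt_mul_le x
      _ ≤ _ := by rw [one_mul]; exact h3
  refine (lintegral_mono key).trans ?_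
  have hm : Measurable fun z : E3 × ℝ =>
      ENNReal.ofReal (z.2 ^ (3/2 : ℝ)) * ‖fderiv ℝ φ (z.2 • z.1)‖ₑ ^ 2 := by
    have hm1 : Measurable fun z : E3 × ℝ => ‖fderiv ℝ φ (z.2 • z.1)‖ₑ :=
      (hcont.comp (by fun_prop : Continuous fun z : E3 × ℝ => z.2 • z.1)).measurable.enorm
    fun_prop
  rw [lintegral_const_mul' _ _ (by norm_num), lintegral_lintegral_swap hm.aemeasurable]
  have h1 : ∀ σ ∈ Ioi (1:ℝ), ∫⁻ x : E3, ENNReal.ofReal (σ ^ (3/2 : ℝ)) *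
      ‖fderiv ℝ φ (σ • x)‖ₑ ^ 2 = ENNReal.ofReal (σ ^ (-(3/2) : ℝ)) *
        ∫⁻ x : E3, ‖fderiv ℝ φ x‖ₑ ^ 2 := by
    intro σ hσ
    have h0 : (0:ℝ) < σ := lt_trans one_pos hσ
    rw [lintegral_const_mul' _ _ ENNReal.ofReal_ne_top,
      lint_smul (fun x => ‖fderiv ℝ φ x‖ₑ ^ 2) h0, ← mul_assoc,
      ← ENNReal.ofReal_mul (by positivity), ← Real.rpow_natCast, ← Real.rpow_neg h0.le,
      ← Real.rpow_add h0]
    norm_num
  rw [setLIntegral_congr_fun measurableSet_Ioi h1, lintegral_mul_const _ (by fun_prop), lint_rpow,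
    ← mul_assoc]
  norm_num

lemma sq_aux (a b : ℝ≥0∞) : (a + 2 * b) ^ 2 ≤ 2 * a ^ 2 + 8 * b ^ 2 := by
  rcases eq_or_ne a ⊤ with rfl | ha
  · simp
  rcases eq_or_ne b ⊤ with rfl | hb
  · simp [ENNReal.mul_top]
  lift a to ℝ≥0 using ha
  lift b to ℝ≥0 using hb
  norm_cast
  rw [← NNReal.coe_le_coe]
  push_cast
  nlinarith [sq_nonneg ((a:ℝ) - 2 * b)]

lemma wt_smul (x : E3) {σ : ℝ} (hσ : 0 < σ) :
    (wt x : ℝ≥0∞) = ENNReal.ofReal (σ ^ 2) * (wt (σ • x) : ℝ≥0∞) := by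
  have : wt x = (Real.toNNReal (σ ^ 2)) * wt (σ • x) := by
    unfold wt
    rw [nnnorm_smul, mul_pow, mul_inv, ← mul_assoc]
    have h1 : Real.toNNReal (σ ^ 2) = ‖σ‖₊ ^ 2 := by
      rw [Real.toNNReal_pow hσ.le]
      congr 1
      ext
      rw [Real.coe_toNNReal _ hσ.le, coe_nnnorm, Real.norm_of_nonneg hσ.le]
    rw [h1, mul_inv_cancel₀, one_mul]
    have : ‖σ‖₊ ≠ 0 := by simpa using hσ.ne'
    positivity
  rw [this]
  push_cast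
  rfl

/-- the dilation difference, smooth case -/
theorem diff_smooth {φ : E3 → ℝ} (hφ : ContDiff ℝ 1 φ) (hs : HasCompactSupport φ) {t : ℝ}
    (ht : 1 ≤ t) (ht2 : t ≤ 2) :
    ∫⁻ x, ‖φ x - √t * φ (t • x)‖ₑ ^ 2 ∂nu ≤
      ENNReal.ofReal (t - 1) ^ 2 * (16 * ∫⁻ x, ‖fderiv ℝ φ x‖ₑ ^ 2) := by
  rw [lint_nu]
  have hcont : Continuous (fderiv ℝ φ) := hφ.continuous_fderiv (by norm_num)
  have hcφ : Continuous φ := hφ.continuous
  have key : ∀ x : E3, (wt x : ℝ≥0∞) * ‖φ x - √t * φ (t • x)‖ₑ ^ 2 ≤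
      ENNReal.ofReal (t - 1) * ∫⁻ σ in Ioc (1:ℝ) t, (2 * ((wt x : ℝ≥0∞) * ‖φ (σ • x)‖ₑ ^ 2) +
        8 * ‖fderiv ℝ φ (σ • x)‖ₑ ^ 2) := by
    intro x
    have h1 : ‖φ x - √t * φ (t • x)‖ₑ ≤ ∫⁻ σ in Ioc (1:ℝ) t,
        (‖φ (σ • x)‖ₑ + 2 * (‖x‖ₑ * ‖fderiv ℝ φ (σ • x)‖ₑ)) := by
      have h2 := ftc_bound (g := fun σ => √σ * φ (σ • x))
        (g' := fun σ => 1 / (2 * √σ) * φ (σ • x) + √σ * fderiv ℝ φ (σ • x) x) ht
        (fun σ hσ => by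
          have h0 : (0:ℝ) < σ := lt_of_lt_of_le one_pos hσ.1
          have h3 : HasDerivAt (fun σ : ℝ => σ • x) ((1:ℝ) • x) σ := (hasDerivAt_id σ).smul_const x
          have h4 : HasFDerivAt φ (fderiv ℝ φ (σ • x)) (σ • x) :=
            (hφ.differentiable (by norm_num)).differentiableAt.hasFDerivAt
          have h5 := h4.comp_hasDerivAt σ h3
          rw [one_smul] at h5
          exact (Real.hasDerivAt_sqrt h0.ne').mul h5)
        (by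
          apply ContinuousOn.add
          · apply ContinuousOn.mul
            · apply ContinuousOn.div (by fun_prop) (by fun_prop)
              intro σ hσ
              have h0 : (0:ℝ) < σ := lt_of_lt_of_le one_pos hσ.1
              positivity
            · fun_prop
          · apply Continuous.continuousOn
            fun_prop)
      rw [← enorm_neg]
      simp only [Real.sqrt_one, one_mul, one_smul] at h2
      rw [neg_sub]
      refine h2.trans (setLIntegral_mono' measurableSet_Ioc fun σ hσ => ?_)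
      have h0 : (1:ℝ) ≤ √σ := Real.one_le_sqrt.2 hσ.1.le
      have h0' : √σ ≤ 2 := by
        rw [Real.sqrt_le_left (by norm_num)]
        linarith [hσ.2]
      refine (enorm_add_le _ _).trans ?_
      gcongr
      · rw [enorm_mul]
        refine mul_le_of_le_one_left' ?_
        rw [Real.enorm_eq_ofReal (by positivity), ENNReal.ofReal_le_one]
        rw [div_le_one (by positivity)]
        linarith
      · rw [enorm_mul, mul_comm ‖x‖ₑ]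
        gcongr
        · rw [Real.enorm_eq_ofReal (by positivity)]
          exact ENNReal.ofReal_le_of_le_toReal (by simpa using h0')
        · exact (fderiv ℝ φ (σ • x)).le_opENorm x
    have hm1 : Measurable fun σ : ℝ => ‖fderiv ℝ φ (σ • x)‖ₑ :=
      (hcont.comp (by fun_prop : Continuous fun σ : ℝ => σ • x)).measurable.enorm
    have hm2 : Measurable fun σ : ℝ => ‖φ (σ • x)‖ₑ :=
      (hcφ.comp (by fun_prop : Continuous fun σ : ℝ => σ • x)).measurable.enorm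
    have h3 : ‖φ x - √t * φ (t • x)‖ₑ ^ 2 ≤ ENNReal.ofReal (t - 1) * ∫⁻ σ in Ioc (1:ℝ) t,
        (‖φ (σ • x)‖ₑ + 2 * (‖x‖ₑ * ‖fderiv ℝ φ (σ • x)‖ₑ)) ^ 2 := by
      have h4 := cs_lint (volume.restrict (Ioc (1:ℝ) t)) (f := fun _ => 1)
        (g := fun σ => ‖φ (σ • x)‖ₑ + 2 * (‖x‖ₑ * ‖fderiv ℝ φ (σ • x)‖ₑ)) (by fun_prop)
        (by fun_prop)
      simp only [one_mul, one_pow, lintegral_one, Measure.restrict_apply_univ, Real.volume_Ioc] at h4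
      exact (pow_le_pow_left' h1 2).trans h4
    have h5 : (wt x : ℝ≥0∞) * ∫⁻ σ in Ioc (1:ℝ) t,
        (‖φ (σ • x)‖ₑ + 2 * (‖x‖ₑ * ‖fderiv ℝ φ (σ • x)‖ₑ)) ^ 2 ≤ ∫⁻ σ in Ioc (1:ℝ) t,
        (2 * ((wt x : ℝ≥0∞) * ‖φ (σ • x)‖ₑ ^ 2) + 8 * ‖fderiv ℝ φ (σ • x)‖ₑ ^ 2) := by
      rw [← lintegral_const_mul' _ _ ENNReal.coe_ne_top]
      refine lintegral_mono fun σ => ?_
      have h6 : (‖φ (σ • x)‖ₑ + 2 * (‖x‖ₑ * ‖fderiv ℝ φ (σ • x)‖ₑ)) ^ 2 ≤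
          2 * ‖φ (σ • x)‖ₑ ^ 2 + 8 * (‖x‖ₑ ^ 2 * ‖fderiv ℝ φ (σ • x)‖ₑ ^ 2) := by
        rw [← mul_pow]
        exact sq_aux _ _
      calc (wt x : ℝ≥0∞) * (‖φ (σ • x)‖ₑ + 2 * (‖x‖ₑ * ‖fderiv ℝ φ (σ • x)‖ₑ)) ^ 2
          ≤ (wt x : ℝ≥0∞) * (2 * ‖φ (σ • x)‖ₑ ^ 2 +
            8 * (‖x‖ₑ ^ 2 * ‖fderiv ℝ φ (σ • x)‖ₑ ^ 2)) := by gcongr
        _ = 2 * ((wt x : ℝ≥0∞) * ‖φ (σ • x)‖ₑ ^ 2) +
            8 * (((wt x : ℝ≥0∞) * ‖x‖ₑ ^ 2) * ‖fderiv ℝ φ (σ • x)‖ₑ ^ 2) := by ring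
        _ ≤ 2 * ((wt x : ℝ≥0∞) * ‖φ (σ • x)‖ₑ ^ 2) +
            8 * (1 * ‖fderiv ℝ φ (σ • x)‖ₑ ^ 2) := by
            gcongr
            exact wt_mul_le x
        _ = _ := by rw [one_mul]
    calc (wt x : ℝ≥0∞) * ‖φ x - √t * φ (t • x)‖ₑ ^ 2 ≤ (wt x : ℝ≥0∞) * (ENNReal.ofReal (t - 1) *
          ∫⁻ σ in Ioc (1:ℝ) t, (‖φ (σ • x)‖ₑ + 2 * (‖x‖ₑ * ‖fderiv ℝ φ (σ • x)‖ₑ)) ^ 2) := by
            gcongr
      _ = ENNReal.ofReal (t - 1) * ((wt x : ℝ≥0∞) * 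
          ∫⁻ σ in Ioc (1:ℝ) t, (‖φ (σ • x)‖ₑ + 2 * (‖x‖ₑ * ‖fderiv ℝ φ (σ • x)‖ₑ)) ^ 2) := by ring
      _ ≤ _ := by gcongr
  refine (lintegral_mono key).trans ?_
  have hm1 : Measurable fun z : E3 × ℝ => ‖fderiv ℝ φ (z.2 • z.1)‖ₑ :=
    (hcont.comp (by fun_prop : Continuous fun z : E3 × ℝ => z.2 • z.1)).measurable.enorm
  have hm2 : Measurable fun z : E3 × ℝ => ‖φ (z.2 • z.1)‖ₑ :=
    (hcφ.comp (by fun_prop : Continuous fun z : E3 × ℝ => z.2 • z.1)).measurable.enorm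
  have hmw : Measurable fun z : E3 × ℝ => (wt z.1 : ℝ≥0∞) :=
    (measurable_wt.comp measurable_fst).coe_nnreal_ennreal
  have hm : Measurable fun z : E3 × ℝ => (2 * ((wt z.1 : ℝ≥0∞) * ‖φ (z.2 • z.1)‖ₑ ^ 2) +
        8 * ‖fderiv ℝ φ (z.2 • z.1)‖ₑ ^ 2) := by
    fun_prop
  rw [lintegral_const_mul' _ _ ENNReal.ofReal_ne_top, lintegral_lintegral_swap hm.aemeasurable,
    pow_two, mul_assoc]
  gcongr
  set I := ∫⁻ x : E3, ‖fderiv ℝ φ x‖ₑ ^ 2 with hI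
  have h1 : ∀ σ ∈ Ioc (1:ℝ) t, ∫⁻ x : E3, (2 * ((wt x : ℝ≥0∞) * ‖φ (σ • x)‖ₑ ^ 2) +
        8 * ‖fderiv ℝ φ (σ • x)‖ₑ ^ 2) ≤ 16 * I := by
    intro σ hσ
    have h0 : (0:ℝ) < σ := lt_trans one_pos hσ.1
    have hle : ENNReal.ofReal (σ ^ 3)⁻¹ ≤ 1 := by
      rw [ENNReal.ofReal_le_one]
      exact inv_le_one_of_one_le₀ (one_le_pow₀ hσ.1.le)
    have a1 : ∫⁻ x : E3, ‖fderiv ℝ φ (σ • x)‖ₑ ^ 2 ≤ I := by
      rw [lint_smul (fun x => ‖fderiv ℝ φ x‖ₑ ^ 2) h0]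
      exact mul_le_of_le_one_left' hle
    have a2 : ∫⁻ x : E3, (wt x : ℝ≥0∞) * ‖φ (σ • x)‖ₑ ^ 2 ≤ 4 * I := by
      have a3 : ∀ x : E3, (wt x : ℝ≥0∞) * ‖φ (σ • x)‖ₑ ^ 2 =
          ENNReal.ofReal (σ ^ 2) * ((wt (σ • x) : ℝ≥0∞) * ‖φ (σ • x)‖ₑ ^ 2) := by
        intro x
        rw [wt_smul x h0, mul_assoc]
      simp only [a3]
      rw [lintegral_const_mul' _ _ ENNReal.ofReal_ne_top,
        lint_smul (fun x => (wt x : ℝ≥0∞) * ‖φ x‖ₑ ^ 2) h0, ← mul_assoc,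
        ← ENNReal.ofReal_mul (by positivity), ← lint_nu]
      refine (mul_le_of_le_one_left' ?_).trans (hardy_smooth hφ hs)
      rw [ENNReal.ofReal_le_one, ← div_eq_mul_inv, div_le_one (by positivity)]
      exact pow_le_pow_right₀ hσ.1.le (by norm_num)
    rw [lintegral_add_left, lintegral_const_mul' _ _ (by norm_num),
      lintegral_const_mul' _ _ (by norm_num)]
    · calc _ ≤ 2 * (4 * I) + 8 * I := by gcongr
        _ = 16 * I := by ring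
    · have hm3 : Measurable fun x : E3 => ‖φ (σ • x)‖ₑ :=
        (hcφ.comp (by fun_prop : Continuous fun x : E3 => σ • x)).measurable.enorm
      have := measurable_wt.coe_nnreal_ennreal
      fun_prop
  refine (setLIntegral_mono' measurableSet_Ioc h1).trans (le_of_eq ?_)
  rw [lintegral_const, Measure.restrict_apply_univ, Real.volume_Ioc, mul_comm]

end Pool.Agent.K4H52.HS
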