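import Pool.Agent.K4H52.HS.Pair

set_option autoImplicit false
open MeasureTheory Filter Topology Set
open scoped ENNReal NNReal

namespace Pool.Agent.K4H52.HS

/-- the centre of the ball -/
noncomputable def ctr : E3 := EuclideanSpace.single 0 1

/-- the unit ball whose boundary passes through the origin -/
def Om : Set E3 := Metric.ball ctr 1

lemma norm_ctr : ‖ctr‖ = 1 := by simp [ctr]

lemma smul_mem {x : E3} {t : ℝ} (ht : 1 ≤ t) (hx : t • x ∈ Om) : x ∈ Om := by
  have h0 : 0 < t := by linarith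
  rw [Om, mem_ball_iff_norm] at hx ⊢
  have e : x - ctr = t⁻¹ • (t • x - ctr) - (1 - t⁻¹) • ctr := by
    rw [smul_sub, smul_smul, inv_mul_cancel₀ h0.ne', one_smul, sub_smul, one_smul]
    abel
  rw [e]
  have hi : t⁻¹ ≤ 1 := inv_le_one_of_one_le₀ ht
  have hi0 : 0 < t⁻¹ := by positivity
  calc _ ≤ ‖t⁻¹ • (t • x - ctr)‖ + ‖(1 - t⁻¹) • ctr‖ := norm_sub_le _ _
    _ = t⁻¹ * ‖t • x - ctr‖ + (1 - t⁻¹) := by
        rw [norm_smul, norm_smul, norm_ctr, Real.norm_of_nonneg hi0.le,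
          Real.norm_of_nonneg (by linarith), mul_one]
    _ < t⁻¹ * 1 + (1 - t⁻¹) := by gcongr
    _ = 1 := by ring

lemma norm_lt {x : E3} (hx : x ∈ Om) : ‖x‖ < 2 := by
  rw [Om, mem_ball_iff_norm] at hx
  have := norm_add_le (x - ctr) ctr
  rw [norm_ctr, sub_add_cancel] at this
  linarith

lemma isOpen_Om : IsOpen Om := Metric.isOpen_ball

lemma ne_zero_of_mem {x : E3} (hx : x ∈ Om) : x ≠ 0 := by
  rintro rfl
  rw [Om, mem_ball_iff_norm, zero_sub, norm_neg, norm_ctr] at hx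
  exact lt_irrefl _ hx

variable {u : E3 → ℝ} {G : E3 → E3} {φ : ℕ → E3 → ℝ}

lemma Appr.zero_out (A : Appr u G φ) (hs : ∀ n, tsupport (φ n) ⊆ Om) :
    ∀ᵐ x ∂(volume : Measure E3), x ∉ Om → u x = 0 := by
  have h1 : TendstoInMeasure volume φ atTop u :=
    tendstoInMeasure_of_tendsto_eLpNorm (by norm_num) (fun n => (A.cont n).aestronglyMeasurable)
      A.memu.1 A.lim
  obtain ⟨ns, hns, hae⟩ := h1.exists_seq_tendsto_ae
  filter_upwards [hae] with x hx hxO
  refine tendsto_nhds_unique hx (tendsto_const_nhds.congr fun i => ?_)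
  by_contra hne
  exact hxO (hs (ns i) (subset_tsupport _ (Ne.symm hne)))

lemma Appr.mem6 (A : Appr u G φ) : MemLp u 6 volume :=
  ⟨A.memu.1, A.sobolev.trans_lt (ENNReal.mul_lt_top ENNReal.coe_lt_top A.memG.2)⟩

lemma mem3_of {f : E3 → ℝ} (hf : MemLp f 6 volume)
    (hz : ∀ᵐ x ∂(volume : Measure E3), x ∉ Om → f x = 0) : MemLp f 3 volume := by
  have h1 : MemLp (Om.indicator fun _ => (1:ℝ)) 6 (volume : Measure E3) := by
    refine memLp_indicator_const 6 isOpen_Om.measurableSet 1 (Or.inr ?_)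
    exact Metric.isBounded_ball.measure_lt_top.ne
  have h2 := MemLp.mul' h1 hf (hpqr := ht663)
  refine (memLp_congr_ae ?_).1 h2
  filter_upwards [hz] with x hx
  by_cases h : x ∈ Om
  · simp [h]
  · simp [h, hx h]

lemma Appr.cube (A : Appr u G φ) : MemLp (fun x => u x ^ 3) 2 volume := by
  have h1 := MemLp.mul' A.mem6 A.mem6 (hpqr := ht663)
  have h2 := MemLp.mul' A.mem6 h1 (hpqr := ht362)
  refine (memLp_congr_ae (Eventually.of_forall fun x => ?_)).1 h2
  ring

lemma Appr.sq (A : Appr u G φ) (hz : ∀ᵐ x ∂(volume : Measure E3), x ∉ Om → u x = 0) :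
    MemLp (fun x => u x ^ 2) 2 volume := by
  have h2 := MemLp.mul' A.mem6 (mem3_of A.mem6 hz) (hpqr := ht362)
  refine (memLp_congr_ae (Eventually.of_forall fun x => ?_)).1 h2
  ring

lemma aesm_div {f : E3 → ℝ} (hf : AEStronglyMeasurable f volume) :
    AEStronglyMeasurable (fun x => f x / ‖x‖) volume :=
  (hf.aemeasurable.div measurable_norm.aemeasurable).aestronglyMeasurable

lemma Appr.divm (A : Appr u G φ) : MemLp (fun x => u x / ‖x‖) 2 volume := by
  refine ⟨aesm_div A.memu.1, ?_⟩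
  rw [eLpNorm_div]
  exact A.hardy.trans_lt (ENNReal.mul_lt_top (by norm_num) A.memG.2)

lemma Appr.memp (A : Appr u G φ) (n : ℕ) : Appr (φ n) (gradient (φ n)) (fun _ => φ n) :=
  Appr.const (A.smooth n) (A.supp n)

/-- the weak formulation extends to test functions in `H¹₀` -/
lemma weak_ext (A : Appr u G φ) (hz : ∀ᵐ x ∂(volume : Measure E3), x ∉ Om → u x = 0)
    (hweak : ∀ ψ : E3 → ℝ, ContDiff ℝ ((⊤ : ℕ∞) : WithTop ℕ∞) ψ → HasCompactSupport ψ →
      tsupport ψ ⊆ Om →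
      ∫ x, (inner ℝ (G x) (gradient ψ x) + u x ^ 4 * ψ x - u x ^ 3 * ψ x / ‖x‖) = 0)
    {w : E3 → ℝ} {W : E3 → E3} {ψ : ℕ → E3 → ℝ} (B : Appr w W ψ)
    (hs : ∀ n, tsupport (ψ n) ⊆ Om) :
    (∫ x, inner ℝ (G x) (W x)) + (∫ x, u x ^ 3 * (u x * w x)) -
      (∫ x, u x ^ 3 * (w x / ‖x‖)) = 0 := by
  have hu3 := mem3_of A.mem6 hz
  have e : ∀ n, (∫ x, inner ℝ (G x) (gradient (ψ n) x)) + (∫ x, u x ^ 3 * (u x * ψ n x)) -
      (∫ x, u x ^ 3 * (ψ n x / ‖x‖)) = 0 := by
    intro n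
    rw [← hweak (ψ n) (B.smooth n) (B.supp n) (hs n), ← integral_add, ← integral_sub]
    · refine integral_congr_ae (Eventually.of_forall fun x => ?_)
      simp only
      ring
    · refine (int_inner A.memG (B.memp n).memG).add (int_mul A.cube ?_)
      exact MemLp.mul' (B.memp n).mem6 hu3 (hpqr := ht362)
    · exact int_mul A.cube (B.memp n).divm
    · exact int_inner A.memG (B.memp n).memG
    · exact int_mul A.cube (MemLp.mul' (B.memp n).mem6 hu3 (hpqr := ht362))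
  have l1 : Tendsto (fun n => ∫ x, inner ℝ (G x) (gradient (ψ n) x)) atTop
      (𝓝 (∫ x, inner ℝ (G x) (W x))) :=
    pair_limG A.memG (fun n => (B.memp n).memG) B.memG B.limG
  have l2 : Tendsto (fun n => ∫ x, u x ^ 3 * (u x * ψ n x)) atTop
      (𝓝 (∫ x, u x ^ 3 * (u x * w x))) := by
    refine pair_lim A.cube (fun n => MemLp.mul' (B.memp n).mem6 hu3 (hpqr := ht362))
      (MemLp.mul' B.mem6 hu3 (hpqr := ht362)) ?_
    have h1 : Tendsto (fun n => eLpNorm u 3 volume * eLpNorm (fun x => ψ n x - w x) 6 volume) atTop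
        (𝓝 0) := by
      have := ENNReal.Tendsto.const_mul B.lim6 (Or.inr hu3.2.ne)
      rwa [mul_zero] at this
    refine tendsto_of_tendsto_of_tendsto_of_le_of_le tendsto_const_nhds h1 (fun _ => zero_le)
      fun n => ?_
    have h2 := eLpNorm_smul_le_mul_eLpNorm (p := 3) (q := 6) (r := 2) (hpqr := ht362)
      (((B.cont n).aestronglyMeasurable).sub B.memu.1) hu3.1
    refine le_trans (le_of_eq ?_) h2
    congr 1
    ext x
    simp only [Pi.smul_apply', Pi.sub_apply, smul_eq_mul]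
    ring
  have l3 : Tendsto (fun n => ∫ x, u x ^ 3 * (ψ n x / ‖x‖)) atTop
      (𝓝 (∫ x, u x ^ 3 * (w x / ‖x‖))) := by
    refine pair_lim A.cube (fun n => (B.memp n).divm) B.divm ?_
    refine B.limnu.congr fun n => ?_
    rw [← eLpNorm_div]
    congr 1
    ext x
    ring
  have l4 := (l1.add l2).sub l3
  exact tendsto_nhds_unique l4 (tendsto_const_nhds.congr fun n => (e n).symm)

end Pool.Agent.K4H52.HS
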