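import Pool.Agent.K4H52.HS.Approx

set_option autoImplicit false
open MeasureTheory Filter Topology Set
open scoped ENNReal NNReal

namespace Pool.Agent.K4H52.HS

lemma ht663 : ENNReal.HolderTriple 6 6 3 :=
  ENNReal.HolderTriple.of_toReal ⟨by norm_num, by norm_num, by norm_num⟩

lemma ht362 : ENNReal.HolderTriple 3 6 2 :=
  ENNReal.HolderTriple.of_toReal ⟨by norm_num, by norm_num, by norm_num⟩

lemma ht632 : ENNReal.HolderTriple 6 3 2 :=
  ENNReal.HolderTriple.of_toReal ⟨by norm_num, by norm_num, by norm_num⟩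

lemma ht221 : ENNReal.HolderTriple 2 2 1 :=
  ENNReal.HolderTriple.of_toReal ⟨by norm_num, by norm_num, by norm_num⟩

/-- pairing and limits -/
lemma pair_lim {f g0 : E3 → ℝ} {g : ℕ → E3 → ℝ} {μ : Measure E3} (hf : MemLp f 2 μ)
    (hg : ∀ n, MemLp (g n) 2 μ) (hg0 : MemLp g0 2 μ)
    (hlim : Tendsto (fun n => eLpNorm (fun x => g n x - g0 x) 2 μ) atTop (𝓝 0)) :
    Tendsto (fun n => ∫ x, f x * g n x ∂μ) atTop (𝓝 (∫ x, f x * g0 x ∂μ)) := by
  have := ht221
  refine tendsto_integral_of_L1 _ (hf.1.mul hg0.1) (Eventually.of_forall fun n => ?_) ?_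
  · exact memLp_one_iff_integrable.1 (MemLp.mul' (hg n) hf)
  · have h1 : Tendsto (fun n => eLpNorm f 2 μ * eLpNorm (fun x => g n x - g0 x) 2 μ) atTop
        (𝓝 0) := by
      have := ENNReal.Tendsto.const_mul hlim (Or.inr hf.2.ne)
      rwa [mul_zero] at this
    refine tendsto_of_tendsto_of_tendsto_of_le_of_le tendsto_const_nhds h1 (fun _ => zero_le)
      fun n => ?_
    have h2 := eLpNorm_smul_le_mul_eLpNorm (p := 2) (q := 2) (r := 1) ((hg n).1.sub hg0.1) hf.1
    rw [eLpNorm_one_eq_lintegral_enorm] at h2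
    refine le_trans (lintegral_mono fun x => le_of_eq ?_) h2
    congr 1
    simp only [Pi.smul_apply', Pi.sub_apply, smul_eq_mul, Pi.mul_apply]
    ring

lemma int_inner {f g : E3 → E3} {μ : Measure E3} (hf : MemLp f 2 μ) (hg : MemLp g 2 μ) :
    Integrable (fun x => inner ℝ (f x) (g x)) μ := by
  have h1 : Integrable (fun x => ‖f x‖ * ‖g x‖) μ :=
    memLp_one_iff_integrable.1 (MemLp.mul' hg.norm hf.norm (hpqr := ht221))
  exact h1.mono' (hf.1.inner hg.1) (Eventually.of_forall fun x => norm_inner_le_norm _ _)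

lemma int_mul {f g : E3 → ℝ} {μ : Measure E3} (hf : MemLp f 2 μ) (hg : MemLp g 2 μ) :
    Integrable (fun x => f x * g x) μ :=
  memLp_one_iff_integrable.1 (MemLp.mul' hg hf (hpqr := ht221))

lemma pair_limG {f g0 : E3 → E3} {g : ℕ → E3 → E3} {μ : Measure E3} (hf : MemLp f 2 μ)
    (hg : ∀ n, MemLp (g n) 2 μ) (hg0 : MemLp g0 2 μ)
    (hlim : Tendsto (fun n => eLpNorm (fun x => g n x - g0 x) 2 μ) atTop (𝓝 0)) :
    Tendsto (fun n => ∫ x, inner ℝ (f x) (g n x) ∂μ) atTop (𝓝 (∫ x, inner ℝ (f x) (g0 x) ∂μ)) := by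
  have := ht221
  refine tendsto_integral_of_L1 _ (hf.1.inner hg0.1) (Eventually.of_forall fun n => ?_) ?_
  · exact int_inner hf (hg n)
  · have h1 : Tendsto (fun n => eLpNorm f 2 μ * eLpNorm (fun x => g n x - g0 x) 2 μ) atTop
        (𝓝 0) := by
      have := ENNReal.Tendsto.const_mul hlim (Or.inr hf.2.ne)
      rwa [mul_zero] at this
    refine tendsto_of_tendsto_of_tendsto_of_le_of_le tendsto_const_nhds h1 (fun _ => zero_le)
      fun n => ?_
    have h2 := eLpNorm_smul_le_mul_eLpNorm (p := 2) (q := 2) (r := 1) ((hg n).1.sub hg0.1)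
      hf.1.norm
    rw [eLpNorm_one_eq_lintegral_enorm, eLpNorm_norm] at h2
    refine le_trans (lintegral_mono fun x => ?_) h2
    rw [← inner_sub_right]
    simp only [Pi.smul_apply', Pi.sub_apply, enorm_smul, enorm_norm]
    rw [← ofReal_norm, ← ofReal_norm, ← ofReal_norm,
      ← ENNReal.ofReal_mul (norm_nonneg _)]
    exact ENNReal.ofReal_le_ofReal (norm_inner_le_norm _ _)

/-- the weighted norm as an unweighted one -/
lemma eLpNorm_div (f : E3 → ℝ) : eLpNorm (fun x => f x / ‖x‖) 2 volume = eLpNorm f 2 nu := by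
  have h : eLpNorm (fun x => f x / ‖x‖) 2 volume ^ 2 = eLpNorm f 2 nu ^ 2 := by
    rw [eLpNorm_two_sq, eLpNorm_two_sq, lint_nu]
    refine lintegral_congr fun x => ?_
    have : ((‖f x / ‖x‖‖₊ ^ 2 : ℝ≥0) : ℝ≥0∞) = ((wt x * ‖f x‖₊ ^ 2 : ℝ≥0) : ℝ≥0∞) := by
      congr 1
      unfold wt
      rw [nnnorm_div, nnnorm_norm, div_pow, div_eq_mul_inv, mul_comm]
    rw [enorm_eq_nnnorm, enorm_eq_nnnorm]
    push_cast at this
    exact this
  refine le_antisymm ?_ ?_
  · exact (ENNReal.pow_le_pow_left_iff two_ne_zero).1 h.le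
  · exact (ENNReal.pow_le_pow_left_iff two_ne_zero).1 h.ge

end Pool.Agent.K4H52.HS
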